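import Pool.Agent.H736R2.Lone.Int

set_option autoImplicit false

/-!
# From the asymptotic `L^1` lower bound to all `m ≥ 2`
-/

namespace Pool.Agent.H736R2.Lone

open Finset MeasureTheory

/-- asymptotic lower bound `c (log M)^α` for weighted discrepancy functions in dimension `d` -/
def LBnd (d : ℕ) (α : ℝ) : Prop := ∀ C : ℝ, 0 < C →
    ∃ c : ℝ, 0 < c ∧ ∃ M₀ : ℝ, 2 ≤ M₀ ∧ ∀ M : ℝ, M₀ ≤ M →
      ∀ (ι : Type) (S : Finset ι) (w : ι → ℝ) (P : ι → Fin d → ℝ),
        (S.card : ℝ) ≤ C * M →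
        ENNReal.ofReal (c * (Real.log M) ^ α) ≤
          ∫⁻ x in Set.Icc (0 : Fin d → ℝ) 1, ENNReal.ofReal |disc S w P M x|

/-- unweighted discrepancy functions: trivial lower bound from the distance to the integers -/
theorem small_bound (d : ℕ) (m : ℕ) (hm : 1 ≤ m) (ι : Type) (S : Finset ι)
    (P : ι → Fin (d + 1) → ℝ) :
    ENNReal.ofReal (1 / (4 * 4 ^ (d + 1) * m)) ≤
      ∫⁻ x in Set.Icc (0 : Fin (d + 1) → ℝ) 1,
        ENNReal.ofReal |disc S (fun _ => 1) P (m : ℝ) x| := by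
  classical
  have hm0 : (0 : ℝ) < m := by exact_mod_cast hm
  have hm1 : (1 : ℝ) ≤ m := by exact_mod_cast hm
  set a : Fin (d + 1) → ℝ := Fin.cons (1 / (4 * (m : ℝ))) (fun _ => 1 / 2) with ha
  set b : Fin (d + 1) → ℝ := Fin.cons (1 / (2 * (m : ℝ))) (fun _ => 1) with hb
  have hsub : Set.Icc a b ⊆ Set.Icc (0 : Fin (d + 1) → ℝ) 1 := by
    apply Set.Icc_subset_Icc
    · intro i
      refine Fin.cases ?_ (fun j => ?_) i
      · simp only [ha, Fin.cons_zero, Pi.zero_apply]; positivity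
      · simp only [ha, Fin.cons_succ, Pi.zero_apply]; norm_num
    · intro i
      refine Fin.cases ?_ (fun j => ?_) i
      · simp only [hb, Fin.cons_zero, Pi.one_apply]
        rw [div_le_one (by positivity)]
        linarith
      · simp only [hb, Fin.cons_succ, Pi.one_apply]; norm_num
  have hvol : volume (Set.Icc a b) = ENNReal.ofReal (1 / (4 * (m : ℝ)) * (1 / 2) ^ d) := by
    rw [Real.volume_Icc_pi, Fin.prod_univ_succ]
    simp only [ha, hb, Fin.cons_zero, Fin.cons_succ, Finset.prod_const, Finset.card_univ,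
      Fintype.card_fin]
    rw [← ENNReal.ofReal_pow (by norm_num), ← ENNReal.ofReal_mul (by
      rw [sub_nonneg]
      apply one_div_le_one_div_of_le (by positivity)
      linarith)]
    congr 1
    have : 1 / (2 * (m : ℝ)) - 1 / (4 * (m : ℝ)) = 1 / (4 * (m : ℝ)) := by
      field_simp; norm_num
    rw [this]
    norm_num
  have hpt : ∀ x ∈ Set.Icc a b, ENNReal.ofReal (1 / (4 * 2 ^ d)) ≤
      ENNReal.ofReal |disc S (fun _ => 1) P (m : ℝ) x| := by
    intro x hx
    apply ENNReal.ofReal_le_ofReal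
    unfold disc
    have hsum : ∃ k : ℕ, ∑ j ∈ S, (if ∀ i, P j i ≤ x i then (1 : ℝ) else 0) = k := by
      refine ⟨(S.filter (fun j => ∀ i, P j i ≤ x i)).card, ?_⟩
      rw [← Finset.sum_filter, Finset.sum_const, nsmul_eq_mul, mul_one]
    obtain ⟨k, hk⟩ := hsum
    rw [hk]
    have hx0l : 1 / (4 * (m : ℝ)) ≤ x 0 := hx.1 0
    have hx0u : x 0 ≤ 1 / (2 * (m : ℝ)) := hx.2 0
    have hxjl : ∀ j : Fin d, 1 / 2 ≤ x j.succ := fun j => hx.1 j.succ
    have hxju : ∀ j : Fin d, x j.succ ≤ 1 := fun j => hx.2 j.succ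
    have hprodl : (1 / 2 : ℝ) ^ d ≤ ∏ j : Fin d, x j.succ := by
      calc (1 / 2 : ℝ) ^ d = ∏ j : Fin d, (1 / 2 : ℝ) := by simp
        _ ≤ _ := Finset.prod_le_prod (fun _ _ => by norm_num) (fun j _ => hxjl j)
    have hprodu : ∏ j : Fin d, x j.succ ≤ 1 := by
      calc ∏ j : Fin d, x j.succ ≤ ∏ j : Fin d, (1 : ℝ) :=
            Finset.prod_le_prod (fun j _ => by linarith [hxjl j]) (fun j _ => hxju j)
        _ = 1 := by simp
    rw [Fin.prod_univ_succ]
    set Q := ∏ j : Fin d, x j.succ with hQ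
    have h1 : 1 / 4 ≤ (m : ℝ) * x 0 := by
      rw [div_le_iff₀ (by positivity)] at hx0l
      linarith
    have h2 : (m : ℝ) * x 0 ≤ 1 / 2 := by
      rw [le_div_iff₀ (by positivity)] at hx0u
      linarith
    have hpos : (0 : ℝ) < (1 / 2) ^ d := by positivity
    have h3 : 1 / (4 * 2 ^ d) ≤ (m : ℝ) * (x 0 * Q) := by
      have : (1 / 4 : ℝ) * (1 / 2) ^ d ≤ ((m : ℝ) * x 0) * Q :=
        mul_le_mul h1 hprodl hpos.le (by linarith)
      calc 1 / (4 * 2 ^ d) = (1 / 4 : ℝ) * (1 / 2) ^ d := by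
            rw [one_div_pow]; field_simp
        _ ≤ _ := this
        _ = _ := by ring
    have h4 : (m : ℝ) * (x 0 * Q) ≤ 1 / 2 := by
      have : ((m : ℝ) * x 0) * Q ≤ (1 / 2) * 1 :=
        mul_le_mul h2 hprodu (hpos.le.trans hprodl) (by norm_num)
      linarith
    have h5 : (1 : ℝ) / (4 * 2 ^ d) ≤ 1 / 4 := by
      have : (1 : ℝ) ≤ 2 ^ d := one_le_pow₀ (by norm_num)
      apply one_div_le_one_div_of_le (by norm_num)
      linarith
    rcases Nat.eq_zero_or_pos k with hk0 | hk0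
    · rw [hk0, Nat.cast_zero, zero_sub, abs_neg, abs_of_nonneg (by linarith [show (0:ℝ) < 1 / (4 * 2 ^ d) by positivity])]
      exact h3
    · have hk1 : (1 : ℝ) ≤ k := by exact_mod_cast hk0
      rw [abs_of_nonneg (by linarith)]
      linarith
  calc ENNReal.ofReal (1 / (4 * 4 ^ (d + 1) * m))
      = ENNReal.ofReal (1 / (4 * 2 ^ d)) * volume (Set.Icc a b) := by
        rw [hvol, ← ENNReal.ofReal_mul (by positivity)]
        congr 1
        have h22 : (4 : ℝ) ^ (d + 1) = 4 * (2 ^ d * 2 ^ d) := by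
          rw [pow_succ, ← mul_pow]; norm_num; ring
        rw [h22, one_div_pow]
        field_simp
    _ = ∫⁻ _ in Set.Icc a b, ENNReal.ofReal (1 / (4 * 2 ^ d)) := by
        rw [setLIntegral_const]
    _ ≤ ∫⁻ x in Set.Icc a b, ENNReal.ofReal |disc S (fun _ => 1) P (m : ℝ) x| :=
        setLIntegral_mono' measurableSet_Icc hpt
    _ ≤ _ := lintegral_mono_set hsub

/-- lower bound for all `m ≥ 2` -/
theorem lower_all (d : ℕ) (hd : 1 ≤ d) (α : ℝ) (hα : 0 ≤ α) (h : LBnd d α) :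
    ∃ c : ℝ, 0 < c ∧ ∀ m : ℕ, 2 ≤ m → ∀ (ι : Type) (S : Finset ι) (P : ι → Fin d → ℝ),
      S.card = m →
      ENNReal.ofReal (c * (Real.log m) ^ α) ≤
        ∫⁻ x in Set.Icc (0 : Fin d → ℝ) 1, ENNReal.ofReal |disc S (fun _ => 1) P (m : ℝ) x| := by
  obtain ⟨c, hc, M₀, hM₀, H⟩ := h 1 one_pos
  obtain ⟨d, rfl⟩ : ∃ k, d = k + 1 := ⟨d - 1, by omega⟩
  have hlM : 0 < Real.log M₀ := Real.log_pos (by linarith)
  have hK : 0 < 4 * 4 ^ (d + 1) * M₀ * ((Real.log M₀) ^ α + 1) := by
    have : 0 ≤ (Real.log M₀) ^ α := Real.rpow_nonneg hlM.le α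
    positivity
  refine ⟨min c (1 / (4 * 4 ^ (d + 1) * M₀ * ((Real.log M₀) ^ α + 1))), lt_min hc (by positivity),
    fun m hm ι S P hS => ?_⟩
  have hm2 : (2 : ℝ) ≤ m := by exact_mod_cast hm
  have hlm : 0 ≤ Real.log m := Real.log_nonneg (by linarith)
  have hlα : 0 ≤ (Real.log m) ^ α := Real.rpow_nonneg hlm α
  rcases le_total M₀ m with hmM | hmM
  · refine le_trans (ENNReal.ofReal_le_ofReal ?_) (H m hmM ι S (fun _ => 1) P (by rw [hS, one_mul]))
    exact mul_le_mul_of_nonneg_right (min_le_left _ _) hlα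
  · refine le_trans (ENNReal.ofReal_le_ofReal ?_) (small_bound d m (by omega) ι S P)
    have h1 : (Real.log m) ^ α ≤ (Real.log M₀) ^ α + 1 := by
      have : (Real.log m) ^ α ≤ (Real.log M₀) ^ α :=
        Real.rpow_le_rpow hlm (Real.log_le_log (by linarith) hmM) hα
      linarith
    calc min c (1 / (4 * 4 ^ (d + 1) * M₀ * ((Real.log M₀) ^ α + 1))) * (Real.log m) ^ α
        ≤ (1 / (4 * 4 ^ (d + 1) * M₀ * ((Real.log M₀) ^ α + 1))) * ((Real.log M₀) ^ α + 1) :=
          mul_le_mul (min_le_right _ _) h1 hlα (by positivity)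
      _ = 1 / (4 * 4 ^ (d + 1) * M₀) := by
          have : (Real.log M₀) ^ α + 1 ≠ 0 := by
            have : 0 ≤ (Real.log M₀) ^ α := Real.rpow_nonneg hlM.le α
            positivity
          field_simp
      _ ≤ 1 / (4 * 4 ^ (d + 1) * m) := by
          apply one_div_le_one_div_of_le (by positivity)
          have : (0 : ℝ) < 4 * 4 ^ (d + 1) := by positivity
          nlinarith

/-- version for real integrals, finite point sets and half-open boxes -/
theorem lower_finset (d : ℕ) (hd : 1 ≤ d) (α : ℝ) (hα : 0 ≤ α) (h : LBnd d α) :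
    ∃ c : ℝ, 0 < c ∧ ∀ N : ℕ, 2 ≤ N → ∀ P : Finset (Fin d → ℝ), P.card = N →
      c * (Real.log (N : ℝ)) ^ α ≤
        ∫ x in Set.Icc (0 : Fin d → ℝ) 1,
          abs ((((P : Set (Fin d → ℝ)) ∩ Set.pi Set.univ (fun i => Set.Iio (x i))).ncard : ℝ)
            - (N : ℝ) * ∏ i, x i) := by
  classical
  obtain ⟨c, hc, H⟩ := lower_all d hd α hα h
  refine ⟨c, hc, fun N hN P hP => ?_⟩
  have hae : ∀ᵐ x : Fin d → ℝ, ∀ p ∈ P, ∀ i, x i ≠ p i := by
    rw [Filter.eventually_all_finset]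
    intro p _
    rw [Filter.eventually_all]
    intro i
    have : volume {x : Fin d → ℝ | x i = p i} = 0 := by
      have h1 : {x : Fin d → ℝ | x i = p i} =
          (fun x : Fin d → ℝ => x i) ⁻¹' ({p i} : Set ℝ) := by
        ext x; simp
      rw [h1]
      exact (Measure.quasiMeasurePreserving_eval (fun _ : Fin d => (volume : Measure ℝ)) i).preimage_null
        (by simp)
    rw [ae_iff]
    simpa using this
  have hcongr : ∀ᵐ x : Fin d → ℝ,
      abs ((((P : Set (Fin d → ℝ)) ∩ Set.pi Set.univ (fun i => Set.Iio (x i))).ncard : ℝ)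
            - (N : ℝ) * ∏ i, x i) = |disc P (fun _ => 1) (fun p => p) (N : ℝ) x| := by
    filter_upwards [hae] with x hx
    unfold disc
    congr 2
    have h1 : ((P : Set (Fin d → ℝ)) ∩ Set.pi Set.univ (fun i => Set.Iio (x i))) =
        ((P.filter (fun p => ∀ i, p i ≤ x i) : Finset (Fin d → ℝ)) : Set (Fin d → ℝ)) := by
      ext p
      simp only [Set.mem_inter_iff, Finset.mem_coe, Set.mem_pi, Set.mem_univ, forall_true_left,
        Set.mem_Iio, Finset.coe_filter, Set.mem_ofPred_eq]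
      constructor
      · rintro ⟨hp, h2⟩
        exact ⟨hp, fun i => (h2 i).le⟩
      · rintro ⟨hp, h2⟩
        exact ⟨hp, fun i => lt_of_le_of_ne (h2 i) (fun h3 => hx p hp i h3.symm)⟩
    rw [h1, Set.ncard_coe_finset, ← Finset.sum_filter, Finset.sum_const, nsmul_eq_mul, mul_one]
  rw [integral_congr_ae (ae_restrict_of_ae hcongr)]
  rw [integral_eq_lintegral_of_nonneg_ae (Filter.Eventually.of_forall (fun x => abs_nonneg _))
    (measurable_disc P (fun _ => (1 : ℝ)) (fun p => p) (N : ℝ)).abs.aestronglyMeasurable]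
  have hfin : ∫⁻ x in Set.Icc (0 : Fin d → ℝ) 1,
      ENNReal.ofReal |disc P (fun _ => 1) (fun p => p) (N : ℝ) x| ≠ ⊤ := by
    apply ne_of_lt
    calc ∫⁻ x in Set.Icc (0 : Fin d → ℝ) 1,
      ENNReal.ofReal |disc P (fun _ => 1) (fun p => p) (N : ℝ) x|
        ≤ ∫⁻ _ in Set.Icc (0 : Fin d → ℝ) 1, ENNReal.ofReal (2 * N) := by
          apply setLIntegral_mono' measurableSet_Icc
          intro x hx
          apply ENNReal.ofReal_le_ofReal
          unfold disc
          have h1 : ∏ i, x i ≤ 1 := by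
            calc ∏ i, x i ≤ ∏ i : Fin d, (1 : ℝ) :=
                  Finset.prod_le_prod (fun j _ => hx.1 j) (fun j _ => hx.2 j)
              _ = 1 := by simp
          have h0 : 0 ≤ ∏ i, x i := Finset.prod_nonneg (fun j _ => hx.1 j)
          have h2 : ∑ j ∈ P, (if ∀ i, j i ≤ x i then (1 : ℝ) else 0) ≤ N := by
            calc ∑ j ∈ P, (if ∀ i, j i ≤ x i then (1 : ℝ) else 0) ≤ ∑ j ∈ P, (1 : ℝ) := by
                  apply Finset.sum_le_sum
                  intro j _
                  split_ifs <;> norm_num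
              _ = N := by rw [Finset.sum_const, nsmul_eq_mul, mul_one, hP]
          have h3 : 0 ≤ ∑ j ∈ P, (if ∀ i, j i ≤ x i then (1 : ℝ) else 0) := by
            apply Finset.sum_nonneg
            intro j _
            split_ifs <;> norm_num
          have hN0 : (0 : ℝ) ≤ N := by positivity
          rw [abs_le]
          constructor
          · nlinarith
          · nlinarith
      _ = ENNReal.ofReal (2 * N) * volume (Set.Icc (0 : Fin d → ℝ) 1) := by
          rw [setLIntegral_const]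
      _ < ⊤ := by
          apply ENNReal.mul_lt_top ENNReal.ofReal_lt_top
          exact (isCompact_Icc (a := (0 : Fin d → ℝ)) (b := 1)).measure_lt_top
  rw [← ENNReal.ofReal_le_iff_le_toReal hfin]
  exact H N hN _ P (fun p => p) hP

end Pool.Agent.H736R2.Lone
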