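import Mathlib

set_option autoImplicit false

/-!
# Definitions for the L^1 lower bound of the discrepancy function in dimension 3
-/

namespace Pool.Agent.H736R2.Lone

open Finset

/-- average of `f` over the block `[A 2^r, (A+1) 2^r)` -/
noncomputable def phi (r A : ℕ) (f : ℕ → ℂ) : ℂ :=
  (∑ j ∈ range (2 ^ r), f (A * 2 ^ r + j)) / 2 ^ r

/-- first moment of `f` about the centre of the block, in units of the block length -/
noncomputable def gam (r A : ℕ) (f : ℕ → ℂ) : ℂ :=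
  (∑ j ∈ range (2 ^ r), (((j : ℂ) - (2 ^ r - 1) / 2) / 2 ^ r) * f (A * 2 ^ r + j)) / 2 ^ r

/-- Haar coefficient of `f` on the block number `A` of length `2^(r+1)` (its halves have
length `2^r` and numbers `2A`, `2A+1`) -/
noncomputable def hh (r A : ℕ) (f : ℕ → ℂ) : ℂ := (phi r (2 * A + 1) f - phi r (2 * A) f) / 2

/-- real block average -/
noncomputable def av (r A : ℕ) (g : ℕ → ℝ) : ℝ :=
  (∑ j ∈ range (2 ^ r), g (A * 2 ^ r + j)) / 2 ^ r

/-- real Haar coefficient on block `A` of length `2^(r+1)` -/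
noncomputable def dl (r A : ℕ) (g : ℕ → ℝ) : ℝ := (av r (2 * A + 1) g - av r (2 * A) g) / 2

/-- weighted two-dimensional discrepancy on a shifted grid of side `2^R` -/
noncomputable def D2 {ι : Type} (S : Finset ι) (w : ι → ℝ) (p q : ι → ℕ) (M s t : ℝ) (R : ℕ)
    (b c : ℕ) : ℝ :=
  ∑ j ∈ S, (if p j ≤ b ∧ q j ≤ c then w j else 0) - M * (((b : ℝ) + s) / 2 ^ R) * (((c : ℝ) + t) / 2 ^ R)

/-- weighted three-dimensional discrepancy on a shifted grid -/
noncomputable def D3 {ι : Type} (S : Finset ι) (w : ι → ℝ) (o p q : ι → ℕ) (M u s t : ℝ) (V R : ℕ)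
    (a b c : ℕ) : ℝ :=
  ∑ j ∈ S, (if o j ≤ a ∧ p j ≤ b ∧ q j ≤ c then w j else 0)
    - M * (((a : ℝ) + u) / 2 ^ V) * (((b : ℝ) + s) / 2 ^ R) * (((c : ℝ) + t) / 2 ^ R)

/-- weighted discrepancy function in `ℝ^d` (closed boxes) -/
noncomputable def disc {d : ℕ} {ι : Type} (S : Finset ι) (w : ι → ℝ) (P : ι → Fin d → ℝ) (M : ℝ)
    (x : Fin d → ℝ) : ℝ :=
  ∑ j ∈ S, (if ∀ i, P j i ≤ x i then w j else 0) - M * ∏ i, x i

end Pool.Agent.H736R2.Lone
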