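import Pool.Agent.H736R2.Lone.Defs

set_option autoImplicit false

/-! Slicing and averaging over the shifts of a grid. -/

namespace Pool.Agent.H736R2.Lone

open Finset MeasureTheory

/-- slicing off the first coordinate -/
theorem lintegral_slice (d : ℕ) (F : (Fin (d + 1) → ℝ) → ENNReal) (hF : Measurable F) :
    ∫⁻ x in Set.Icc (0 : Fin (d + 1) → ℝ) 1, F x =
      ∫⁻ t in Set.Icc (0 : ℝ) 1, ∫⁻ x in Set.Icc (0 : Fin d → ℝ) 1, F (Fin.cons t x) := by
  have hmp := volume_preserving_piFinSuccAbove (fun _ : Fin (d + 1) => ℝ) 0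
  set e := MeasurableEquiv.piFinSuccAbove (fun _ : Fin (d + 1) => ℝ) 0 with he
  have hsymm : ∀ (t : ℝ) (x : Fin d → ℝ), e.symm (t, x) = Fin.cons t x := by
    intro t x
    apply e.injective
    rw [e.apply_symm_apply]
    simp only [he, MeasurableEquiv.piFinSuccAbove_apply, Fin.insertNthEquiv_zero,
      Fin.consEquiv_symm_apply, Fin.cons_zero, Fin.tail_cons]
  have hpre : Set.Icc (0 : Fin (d + 1) → ℝ) 1 =
      e ⁻¹' (Set.Icc (0 : ℝ) 1 ×ˢ Set.Icc (0 : Fin d → ℝ) 1) := by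
    ext x
    simp only [Set.mem_preimage, Set.mem_prod, Set.mem_Icc, Pi.le_def, he]
    constructor
    · rintro ⟨h0, h1⟩
      exact ⟨⟨h0 0, h1 0⟩, fun i => h0 _, fun i => h1 _⟩
    · rintro ⟨⟨h0, h1⟩, h2, h3⟩
      constructor
      · intro i
        refine Fin.cases h0 (fun j => h2 j) i
      · intro i
        refine Fin.cases h1 (fun j => h3 j) i
  have h1 : ∫⁻ x in Set.Icc (0 : Fin (d + 1) → ℝ) 1, F x =
      ∫⁻ y in Set.Icc (0 : ℝ) 1 ×ˢ Set.Icc (0 : Fin d → ℝ) 1, F (e.symm y) := by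
    rw [hpre]
    have := hmp.setLIntegral_comp_preimage_emb e.measurableEmbedding (fun y => F (e.symm y))
      (Set.Icc (0 : ℝ) 1 ×ˢ Set.Icc (0 : Fin d → ℝ) 1)
    simpa using this
  rw [h1, Measure.volume_eq_prod, ← Measure.prod_restrict, lintegral_prod]
  · simp only [hsymm]
  · exact (hF.comp e.symm.measurable).aemeasurable

theorem lintegral_scale (F : ℝ → ENNReal) (hF : Measurable F) (N a : ℝ) (hN : 0 < N) :
    ∫⁻ s in Set.Ico (0 : ℝ) 1, F ((a + s) / N) =
      ENNReal.ofReal N * ∫⁻ x in Set.Ico (a / N) ((a + 1) / N), F x := by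
  rw [← lintegral_indicator measurableSet_Ico, ← lintegral_indicator measurableSet_Ico]
  set H : ℝ → ENNReal := (Set.Ico (a / N) ((a + 1) / N)).indicator F with hH
  have hHm : Measurable H := hF.indicator measurableSet_Ico
  have h1 : ∀ s, (Set.Ico (0 : ℝ) 1).indicator (fun s => F ((a + s) / N)) s = H ((a + s) / N) := by
    intro s
    simp only [hH, Set.indicator_apply, Set.mem_Ico]
    have : (0 ≤ s ∧ s < 1) ↔ (a / N ≤ (a + s) / N ∧ (a + s) / N < (a + 1) / N) := by
      rw [div_le_div_iff_of_pos_right hN, div_lt_div_iff_of_pos_right hN]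
      constructor
      · rintro ⟨h, h'⟩
        constructor <;> linarith
      · rintro ⟨h, h'⟩
        constructor <;> linarith
    simp only [this]
  simp only [h1]
  have h2 : ∫⁻ s, H ((a + s) / N) = ∫⁻ s, H (s / N) :=
    lintegral_add_left_eq_self (fun x => H (x / N)) a
  rw [h2]
  have h3 : ∫⁻ s, H (s / N) = ∫⁻ y, H y ∂(Measure.map (fun s : ℝ => s * N⁻¹) volume) := by
    rw [lintegral_map hHm (by fun_prop)]
    rfl
  rw [h3, Real.map_volume_mul_right (inv_ne_zero hN.ne'), lintegral_smul_measure, inv_inv,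
    abs_of_pos hN]
  rfl

/-- averaging over shifts of a grid -/
theorem lintegral_grid (F : ℝ → ENNReal) (hF : Measurable F) (R : ℕ) :
    ∫⁻ x in Set.Icc (0 : ℝ) 1, F x =
      ∫⁻ s in Set.Icc (0 : ℝ) 1, (∑ a ∈ range (2 ^ R), F (((a : ℝ) + s) / 2 ^ R)) / 2 ^ R := by
  have hN : (0 : ℝ) < 2 ^ R := by positivity
  have hsplit : ∀ n : ℕ, ∫⁻ x in Set.Ico (0 : ℝ) ((n : ℝ) / 2 ^ R), F x =
      ∑ a ∈ range n, ∫⁻ x in Set.Ico ((a : ℝ) / 2 ^ R) (((a : ℝ) + 1) / 2 ^ R), F x := by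
    intro n
    induction n with
    | zero => simp
    | succ n ih =>
      rw [Finset.sum_range_succ, ← ih, ← lintegral_union measurableSet_Ico]
      · congr 2
        rw [Set.Ico_union_Ico_eq_Ico (by positivity)]
        · push_cast
          rfl
        · apply div_le_div_of_nonneg_right _ hN.le
          linarith
      · rw [Set.disjoint_left]
        intro x hx hx'
        exact absurd hx.2 (not_lt.2 hx'.1)
  have hA : ∫⁻ x in Set.Icc (0 : ℝ) 1, F x = ∫⁻ x in Set.Ico (0 : ℝ) 1, F x :=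
    setLIntegral_congr Ico_ae_eq_Icc.symm
  have hB : ∫⁻ s in Set.Icc (0 : ℝ) 1, (∑ a ∈ range (2 ^ R), F (((a : ℝ) + s) / 2 ^ R)) / 2 ^ R =
      ∫⁻ s in Set.Ico (0 : ℝ) 1, (∑ a ∈ range (2 ^ R), F (((a : ℝ) + s) / 2 ^ R)) / 2 ^ R :=
    setLIntegral_congr Ico_ae_eq_Icc.symm
  rw [hA, hB]
  have h := hsplit (2 ^ R)
  have h1 : (((2 ^ R : ℕ) : ℝ)) / 2 ^ R = 1 := by
    push_cast
    exact div_self hN.ne'
  rw [h1] at h
  rw [h]
  simp only [div_eq_mul_inv]
  rw [lintegral_mul_const, lintegral_finsetSum]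
  · rw [Finset.sum_mul]
    apply Finset.sum_congr rfl
    intro a _
    have := lintegral_scale F hF (2 ^ R) a hN
    simp only [div_eq_mul_inv] at this
    rw [this]
    have h2 : ENNReal.ofReal (2 ^ R) = 2 ^ R := by
      rw [ENNReal.ofReal_pow (by norm_num)]
      simp
    rw [h2, mul_comm (2 ^ R : ENNReal), mul_assoc, ENNReal.mul_inv_cancel (by simp) (by simp),
      mul_one]
  · intro a _
    fun_prop
  · fun_prop

end Pool.Agent.H736R2.Lone
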