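import Pool.Agent.H736R2.Lone.Defs
import Pool.Agent.H736R2.Lone.Slice

set_option autoImplicit false

/-! `L^1` lower bound of the discrepancy function in all dimensions `d ≥ 3`, from the
three-dimensional grid theorem. -/

namespace Pool.Agent.H736R2.Lone

open Finset MeasureTheory

theorem measurable_disc {d : ℕ} {ι : Type} (S : Finset ι) (w : ι → ℝ) (P : ι → Fin d → ℝ) (M : ℝ) :
    Measurable (disc S w P M) := by
  unfold disc
  apply Measurable.sub
  · apply Finset.measurable_fun_sum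
    intro j _
    apply Measurable.ite
    · have : {x : Fin d → ℝ | ∀ i, P j i ≤ x i} = ⋂ i, {x : Fin d → ℝ | P j i ≤ x i} := by
        ext x
        simp
      rw [this]
      exact MeasurableSet.iInter fun i => measurableSet_le measurable_const (measurable_pi_apply i)
    · exact measurable_const
    · exact measurable_const
  · apply Measurable.const_mul
    apply Finset.measurable_fun_prod
    intro i _
    exact measurable_pi_apply i

theorem measurable_cons (d : ℕ) :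
    Measurable (fun p : ℝ × (Fin d → ℝ) => (Fin.cons p.1 p.2 : Fin (d + 1) → ℝ)) := by
  rw [measurable_pi_iff]
  intro i
  refine Fin.cases ?_ (fun j => ?_) i
  · simp only [Fin.cons_zero]
    exact measurable_fst
  · simp only [Fin.cons_succ]
    exact (measurable_pi_apply j).comp measurable_snd

/-- lower bound of an integral by the averages over all shifts of a grid -/
theorem le_lintegral_of_grid (F : ℝ → ENNReal) (hF : Measurable F) (R : ℕ) (B : ENNReal)
    (h : ∀ s : ℝ, B ≤ (∑ a ∈ range (2 ^ R), F (((a : ℝ) + s) / 2 ^ R)) / 2 ^ R) :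
    B ≤ ∫⁻ x in Set.Icc (0 : ℝ) 1, F x := by
  rw [lintegral_grid F hF R]
  calc B = ∫⁻ _ in Set.Icc (0 : ℝ) 1, B := by
        rw [setLIntegral_const, Real.volume_Icc]
        simp
    _ ≤ _ := lintegral_mono fun s => h s

theorem avg_lintegral (F : ℕ → ℝ → ENNReal) (hF : ∀ a, Measurable (F a)) (N : ℕ) (D : ENNReal) :
    (∑ a ∈ range N, ∫⁻ y in Set.Icc (0 : ℝ) 1, F a y) / D =
      ∫⁻ y in Set.Icc (0 : ℝ) 1, (∑ a ∈ range N, F a y) / D := by
  simp only [div_eq_mul_inv]
  rw [lintegral_mul_const _ (by fun_prop), lintegral_finsetSum _ (fun a _ => hF a)]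

/-- three-dimensional version -/
theorem le_lintegral_three (K : ℝ → ℝ → ℝ → ENNReal)
    (hK : Measurable (fun p : ℝ × ℝ × ℝ => K p.1 p.2.1 p.2.2)) (V R : ℕ) (B : ENNReal)
    (h : ∀ u s t : ℝ, B ≤ (∑ c ∈ range (2 ^ R), (∑ b ∈ range (2 ^ R), (∑ a ∈ range (2 ^ V),
      K (((a : ℝ) + u) / 2 ^ V) (((b : ℝ) + s) / 2 ^ R) (((c : ℝ) + t) / 2 ^ R)) / 2 ^ V)
        / 2 ^ R) / 2 ^ R) :
    B ≤ ∫⁻ x in Set.Icc (0 : ℝ) 1, ∫⁻ y in Set.Icc (0 : ℝ) 1, ∫⁻ z in Set.Icc (0 : ℝ) 1,
      K x y z := by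
  have hK3 : ∀ x y : ℝ, Measurable (fun z => K x y z) := fun x y =>
    hK.comp (measurable_const.prodMk (measurable_const.prodMk measurable_id))
  have hK2 : ∀ x : ℝ, Measurable (fun y => ∫⁻ z in Set.Icc (0 : ℝ) 1, K x y z) := by
    intro x
    have h1 : Measurable (fun p : ℝ × ℝ => K x p.1 p.2) :=
      hK.comp (measurable_const.prodMk (measurable_fst.prodMk measurable_snd))
    exact h1.lintegral_prod_right'
  have hK1 : Measurable (fun x => ∫⁻ y in Set.Icc (0 : ℝ) 1, ∫⁻ z in Set.Icc (0 : ℝ) 1,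
      K x y z) := by
    have h1 : Measurable (fun p : (ℝ × ℝ) × ℝ => K p.1.1 p.1.2 p.2) :=
      hK.comp ((measurable_fst.comp measurable_fst).prodMk
        ((measurable_snd.comp measurable_fst).prodMk measurable_snd))
    have h2 : Measurable (fun p : ℝ × ℝ => ∫⁻ z in Set.Icc (0 : ℝ) 1, K p.1 p.2 z) :=
      h1.lintegral_prod_right'
    exact h2.lintegral_prod_right'
  apply le_lintegral_of_grid _ hK1 V
  intro u
  rw [avg_lintegral (fun a y => ∫⁻ z in Set.Icc (0 : ℝ) 1, K (((a : ℝ) + u) / 2 ^ V) y z)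
    (fun a => hK2 _)]
  apply le_lintegral_of_grid _ _ R
  · intro s
    have e1 : ∀ b : ℕ, (∑ a ∈ range (2 ^ V), ∫⁻ z in Set.Icc (0 : ℝ) 1,
        K (((a : ℝ) + u) / 2 ^ V) (((b : ℝ) + s) / 2 ^ R) z) / 2 ^ V =
        ∫⁻ z in Set.Icc (0 : ℝ) 1, (∑ a ∈ range (2 ^ V),
          K (((a : ℝ) + u) / 2 ^ V) (((b : ℝ) + s) / 2 ^ R) z) / 2 ^ V := fun b =>
      avg_lintegral (fun a z => K (((a : ℝ) + u) / 2 ^ V) (((b : ℝ) + s) / 2 ^ R) z)
        (fun a => hK3 _ _) _ _
    simp only [e1]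
    rw [avg_lintegral (fun b z => (∑ a ∈ range (2 ^ V),
          K (((a : ℝ) + u) / 2 ^ V) (((b : ℝ) + s) / 2 ^ R) z) / 2 ^ V)]
    · apply le_lintegral_of_grid _ _ R
      · intro t
        exact h u s t
      · simp only [div_eq_mul_inv]
        fun_prop
    · intro b
      simp only [div_eq_mul_inv]
      fun_prop
  · simp only [div_eq_mul_inv]
    fun_prop

/-- integration over `[0,1]^3` as an iterated integral -/
theorem lintegral_three (G : (Fin 3 → ℝ) → ENNReal) (hG : Measurable G) :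
    ∫⁻ x in Set.Icc (0 : Fin 3 → ℝ) 1, G x =
      ∫⁻ x in Set.Icc (0 : ℝ) 1, ∫⁻ y in Set.Icc (0 : ℝ) 1, ∫⁻ z in Set.Icc (0 : ℝ) 1,
        G ![x, y, z] := by
  rw [lintegral_slice 2 G hG]
  apply lintegral_congr
  intro x
  have h2 : Measurable (fun v : Fin 2 → ℝ => G (Fin.cons x v)) :=
    hG.comp ((measurable_cons 2).comp (measurable_const.prodMk measurable_id))
  rw [lintegral_slice 1 _ h2]
  apply lintegral_congr
  intro y
  have h1 : Measurable (fun v : Fin 1 → ℝ => G (Fin.cons x (Fin.cons y v))) :=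
    h2.comp ((measurable_cons 1).comp (measurable_const.prodMk measurable_id))
  rw [lintegral_slice 0 _ h1]
  apply lintegral_congr
  intro z
  rw [lintegral_unique]
  have hv : (volume.restrict (Set.Icc (0 : Fin 0 → ℝ) 1)) Set.univ = 1 := by
    rw [Measure.restrict_apply_univ, Real.volume_Icc_pi]
    simp
  rw [hv, mul_one]
  rfl

theorem disc_grid {ι : Type} (S : Finset ι) (w : ι → ℝ) (P : ι → Fin 3 → ℝ) (M u s t : ℝ)
    (V R a b c : ℕ) :
    disc S w P M ![((a : ℝ) + u) / 2 ^ V, ((b : ℝ) + s) / 2 ^ R, ((c : ℝ) + t) / 2 ^ R] =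
      D3 S w (fun j => ⌈P j 0 * 2 ^ V - u⌉₊) (fun j => ⌈P j 1 * 2 ^ R - s⌉₊)
        (fun j => ⌈P j 2 * 2 ^ R - t⌉₊) M u s t V R a b c := by
  have key : ∀ (P u : ℝ) (V a : ℕ), (P ≤ ((a : ℝ) + u) / 2 ^ V) ↔ ⌈P * 2 ^ V - u⌉₊ ≤ a := by
    intro P u V a
    rw [Nat.ceil_le, le_div_iff₀ (by positivity)]
    constructor <;> intro h <;> linarith
  unfold disc D3
  congr 1
  · apply Finset.sum_congr rfl
    intro j _
    congr 1
    rw [Fin.forall_fin_succ, Fin.forall_fin_succ, Fin.forall_fin_one]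
    simp only [← key]
    rfl
  · rw [Fin.prod_univ_three]
    simp only [Matrix.cons_val_zero, Matrix.cons_val_one, Matrix.cons_val_two, Matrix.head_cons,
      Matrix.tail_cons]
    ring

theorem avg3 (f : ℕ → ℕ → ℕ → ℝ) (hf : ∀ a b c, 0 ≤ f a b c) (N V R : ℕ) (N' : ℕ) :
    (∑ c ∈ range N', (∑ b ∈ range N', (∑ a ∈ range N, ENNReal.ofReal (f a b c)) / 2 ^ V)
      / 2 ^ R) / 2 ^ R =
    ENNReal.ofReal ((∑ a ∈ range N, ∑ b ∈ range N', ∑ c ∈ range N', f a b c) /
      (2 ^ V * 2 ^ R * 2 ^ R)) := by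
  have h2 : ∀ n : ℕ, (2 : ENNReal) ^ n = ENNReal.ofReal (2 ^ n) := by
    intro n
    rw [ENNReal.ofReal_pow (by norm_num)]
    simp
  have e : (∑ a ∈ range N, ∑ b ∈ range N', ∑ c ∈ range N', f a b c) / (2 ^ V * 2 ^ R * 2 ^ R) =
      (∑ c ∈ range N', (∑ b ∈ range N', (∑ a ∈ range N, f a b c) / 2 ^ V) / 2 ^ R) / 2 ^ R := by
    simp only [← Finset.sum_div]
    rw [div_div, div_div, mul_assoc]
    congr 1
    calc ∑ a ∈ range N, ∑ b ∈ range N', ∑ c ∈ range N', f a b c
        = ∑ a ∈ range N, ∑ c ∈ range N', ∑ b ∈ range N', f a b c :=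
          Finset.sum_congr rfl fun a _ => Finset.sum_comm
      _ = ∑ c ∈ range N', ∑ a ∈ range N, ∑ b ∈ range N', f a b c := Finset.sum_comm
      _ = _ := Finset.sum_congr rfl fun c _ => Finset.sum_comm
  rw [e, h2, h2, ENNReal.ofReal_div_of_pos (by positivity), ENNReal.ofReal_sum_of_nonneg]
  · congr 1
    apply Finset.sum_congr rfl
    intro c _
    rw [ENNReal.ofReal_div_of_pos (by positivity), ENNReal.ofReal_sum_of_nonneg]
    · congr 1
      apply Finset.sum_congr rfl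
      intro b _
      rw [ENNReal.ofReal_div_of_pos (by positivity), ENNReal.ofReal_sum_of_nonneg]
      intro a _
      exact hf a b c
    · intro b _
      exact div_nonneg (Finset.sum_nonneg fun a _ => hf a b c) (by positivity)
  · intro c _
    exact div_nonneg (Finset.sum_nonneg fun b _ =>
      div_nonneg (Finset.sum_nonneg fun a _ => hf a b c) (by positivity)) (by positivity)

/-- the statement of the three-dimensional grid theorem -/
def ThreeDim : Prop := ∀ C : ℝ, 0 < C → ∃ c : ℝ, 0 < c ∧ ∃ M₀ : ℝ, 2 ≤ M₀ ∧ ∀ M : ℝ, M₀ ≤ M →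
    ∃ V R : ℕ, ∀ (ι : Type) (S : Finset ι) (w : ι → ℝ) (o p q : ι → ℕ) (u s t : ℝ),
      (S.card : ℝ) ≤ C * M →
      c * Real.log M ≤
        (∑ a ∈ range (2 ^ V), ∑ b ∈ range (2 ^ R), ∑ c' ∈ range (2 ^ R),
          |D3 S w o p q M u s t V R a b c'|) / (2 ^ V * 2 ^ R * 2 ^ R)

/-- the conclusion in dimension `d` -/
def LOne (d : ℕ) : Prop := ∀ C : ℝ, 0 < C →
    ∃ c : ℝ, 0 < c ∧ ∃ M₀ : ℝ, 2 ≤ M₀ ∧ ∀ M : ℝ, M₀ ≤ M →
      ∀ (ι : Type) (S : Finset ι) (w : ι → ℝ) (P : ι → Fin d → ℝ),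
        (S.card : ℝ) ≤ C * M →
        ENNReal.ofReal (c * Real.log M) ≤
          ∫⁻ x in Set.Icc (0 : Fin d → ℝ) 1, ENNReal.ofReal |disc S w P M x|

theorem LOne_three (h3 : ThreeDim) : LOne 3 := by
  intro C hC
  obtain ⟨c, hc, M₀, hM₀, h⟩ := h3 C hC
  refine ⟨c, hc, M₀, hM₀, fun M hM ι S w P hS => ?_⟩
  obtain ⟨V, R, hVR⟩ := h M hM
  have hG : Measurable (fun x : Fin 3 → ℝ => ENNReal.ofReal |disc S w P M x|) :=
    (measurable_disc S w P M).abs.ennreal_ofReal
  rw [lintegral_three _ hG]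
  apply le_lintegral_three (fun x y z => ENNReal.ofReal |disc S w P M ![x, y, z]|) _ V R
  · intro u s t
    simp only [disc_grid]
    rw [avg3 (fun a b c => |D3 S w (fun j => ⌈P j 0 * 2 ^ V - u⌉₊) (fun j => ⌈P j 1 * 2 ^ R - s⌉₊)
      (fun j => ⌈P j 2 * 2 ^ R - t⌉₊) M u s t V R a b c|) (fun _ _ _ => abs_nonneg _)]
    exact ENNReal.ofReal_le_ofReal (hVR ι S w _ _ _ u s t hS)
  · apply hG.comp
    rw [measurable_pi_iff]
    intro i
    fin_cases i
    · exact measurable_fst
    · exact measurable_fst.comp measurable_snd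
    · exact measurable_snd.comp measurable_snd

theorem disc_cons {d : ℕ} {ι : Type} (S : Finset ι) (w : ι → ℝ) (P : ι → Fin (d + 1) → ℝ)
    (M t : ℝ) (x : Fin d → ℝ) :
    disc S w P M (Fin.cons t x) =
      disc S (fun j => if P j 0 ≤ t then w j else 0) (fun j => Fin.tail (P j)) (M * t) x := by
  unfold disc
  congr 1
  · apply Finset.sum_congr rfl
    intro j _
    have hiff : (∀ i : Fin (d + 1), P j i ≤ (Fin.cons t x : Fin (d + 1) → ℝ) i) ↔
        (P j 0 ≤ t ∧ ∀ i, Fin.tail (P j) i ≤ x i) := by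
      rw [Fin.forall_fin_succ]
      simp only [Fin.cons_zero, Fin.cons_succ, Fin.tail]
    simp only [hiff]
    by_cases h : P j 0 ≤ t <;> simp [h]
  · rw [Fin.prod_univ_succ]
    simp only [Fin.cons_zero, Fin.cons_succ]
    ring

theorem LOne_succ (d : ℕ) (h : LOne d) : LOne (d + 1) := by
  intro C hC
  obtain ⟨c, hc, M₀, hM₀, h⟩ := h (2 * C) (by positivity)
  refine ⟨c / 4, by positivity, 2 * M₀, by linarith, fun M hM ι S w P hS => ?_⟩
  have hG : Measurable (fun x : Fin (d + 1) → ℝ => ENNReal.ofReal |disc S w P M x|) :=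
    (measurable_disc S w P M).abs.ennreal_ofReal
  rw [lintegral_slice d _ hG]
  have hM4 : 4 ≤ M := by linarith
  have hlog : Real.log M ≤ 2 * Real.log (M / 2) := by
    have h1 : Real.log M ≤ Real.log ((M / 2) ^ 2) := by
      apply Real.log_le_log (by linarith)
      nlinarith
    rw [Real.log_pow] at h1
    push_cast at h1
    exact h1
  calc ENNReal.ofReal (c / 4 * Real.log M)
      = ∫⁻ _ in Set.Icc (1 / 2 : ℝ) 1, ENNReal.ofReal (c / 2 * Real.log M) := by
        rw [setLIntegral_const, Real.volume_Icc, ← ENNReal.ofReal_mul']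
        · congr 1
          ring
        · norm_num
    _ ≤ ∫⁻ t in Set.Icc (1 / 2 : ℝ) 1, ∫⁻ x in Set.Icc (0 : Fin d → ℝ) 1,
          ENNReal.ofReal |disc S w P M (Fin.cons t x)| := by
        apply setLIntegral_mono' measurableSet_Icc
        intro t ht
        simp only [disc_cons]
        have ht0 : 1 / 2 ≤ t := ht.1
        have hMt : M / 2 ≤ M * t := by nlinarith
        have hb := h (M * t) (by linarith) ι S (fun j => if P j 0 ≤ t then w j else 0)
          (fun j => Fin.tail (P j)) (by nlinarith)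
        refine (ENNReal.ofReal_le_ofReal ?_).trans hb
        have h2 : Real.log (M / 2) ≤ Real.log (M * t) := Real.log_le_log (by linarith) hMt
        nlinarith
    _ ≤ _ := by
        apply lintegral_mono_set
        exact Set.Icc_subset_Icc (by norm_num) le_rfl

/-- `L^1` bound for all `d ≥ 3`, weighted points, from the three-dimensional grid theorem -/
theorem L1_lower_of (h3 : ThreeDim) (d : ℕ) (hd : 3 ≤ d) : LOne d := by
  induction d, hd using Nat.le_induction with
  | base => exact LOne_three h3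
  | succ d _ ih => exact LOne_succ d ih

end Pool.Agent.H736R2.Lone
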